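import Mathlib

/-!
# A 2-arc-strong split digraph of minimum degree 5 without a strong arc decomposition

Q1 of `MP_cb4251_co` asks to prove or disprove that every 2-arc-strong split digraph in which
every vertex has degree (out-degree plus in-degree) at least 5 has a strong arc decomposition.
We disprove it.  The counterexample has the six vertices `0, ..., 5`, the independent part
`V₁ = {4, 5}`, the semicomplete part `V₂ = {0, 1, 2, 3}` and the sixteen arcs
`01 05 12 14 20 23 25 30 31 34 35 40 41 43 50 52`.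

The reason why it has no strong arc decomposition: the arcs leaving the vertex sets
`{0, 2, 5}`, `{0, 5}`, `{0, 1, 3, 4, 5}`, `{1}`, `{0, 1, 2, 5}` are exactly
`{01, 23}`, `{01, 52}`, `{12, 52}`, `{12, 14}`, `{14, 23}`, and both parts of a strong arc
decomposition need an arc from each of these five pairs, which is impossible because the five
pairs form a cycle of odd length.
-/

namespace Pool.Agent.Results.MP_cb4251_co.SixVertices

/-- A finite digraph on the vertex set `V`, without loops and without parallel arcs: a finite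
set of ordered pairs of distinct vertices.  The opposite arcs `(u, v)` and `(v, u)` may both be
present. -/
structure Dig (V : Type) where
  /-- the arcs: `(u, v)` is the arc from `u` to `v` -/
  arcs : Finset (V × V)
  /-- there are no loops -/
  loopless : ∀ v : V, (v, v) ∉ arcs

variable {V : Type} [DecidableEq V]

/-- The spanning subdigraph with arc set `A` is strongly connected: from every vertex there is a
directed path (possibly of length zero) to every vertex. -/
def Strong (A : Finset (V × V)) : Prop :=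
  ∀ u v : V, Relation.ReflTransGen (fun x y => (x, y) ∈ A) u v

/-- `D` is a split digraph: its vertices are partitioned into a set `V₁` without arcs inside and
a set `V₂` on which `D` is semicomplete (every two distinct vertices of `V₂` are joined by at
least one arc). -/
def Dig.IsSplit (D : Dig V) : Prop :=
  ∃ V₁ V₂ : Set V, V₁ ∪ V₂ = Set.univ ∧ Disjoint V₁ V₂ ∧
    (∀ u ∈ V₁, ∀ v ∈ V₁, (u, v) ∉ D.arcs) ∧
    (∀ u ∈ V₂, ∀ v ∈ V₂, u ≠ v → (u, v) ∈ D.arcs ∨ (v, u) ∈ D.arcs)

/-- `D` is `k`-arc-strong: `D - X` is strongly connected for every set `X` of fewer than `k`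
arcs. -/
def Dig.ArcStrong (D : Dig V) (k : ℕ) : Prop :=
  ∀ X : Finset (V × V), X ⊆ D.arcs → X.card < k → Strong (D.arcs \ X)

/-- The degree `d(v) = d⁺(v) + d⁻(v)` of a vertex: the number of arcs leaving it plus the number
of arcs entering it. -/
def Dig.degree (D : Dig V) (v : V) : ℕ :=
  (D.arcs.filter (fun a => a.1 = v)).card + (D.arcs.filter (fun a => a.2 = v)).card

/-- `D` has a strong arc decomposition: its arc set is partitioned into two sets `A₁` and `A₂`
such that both spanning subdigraphs `(V, A₁)` and `(V, A₂)` are strongly connected. -/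
def Dig.HasStrongArcDecomposition (D : Dig V) : Prop :=
  ∃ A₁ A₂ : Finset (V × V), A₁ ∪ A₂ = D.arcs ∧ Disjoint A₁ A₂ ∧ Strong A₁ ∧ Strong A₂

/-- One step of the search: add to `S` all out-neighbours of vertices of `S`. -/
def step (A : Finset (Fin 6 × Fin 6)) (S : Finset (Fin 6)) : Finset (Fin 6) :=
  S ∪ (A.filter (fun a => a.1 ∈ S)).image Prod.snd

theorem step_reach (A : Finset (Fin 6 × Fin 6)) (u : Fin 6) (S : Finset (Fin 6))
    (h : ∀ v ∈ S, Relation.ReflTransGen (fun x y => (x, y) ∈ A) u v) :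
    ∀ v ∈ step A S, Relation.ReflTransGen (fun x y => (x, y) ∈ A) u v := by
  intro v hv
  rw [step, Finset.mem_union] at hv
  rcases hv with hv | hv
  · exact h v hv
  · rw [Finset.mem_image] at hv
    obtain ⟨a, ha, rfl⟩ := hv
    rw [Finset.mem_filter] at ha
    exact (h a.1 ha.2).tail ha.1

theorem iterate_reach (A : Finset (Fin 6 × Fin 6)) (u : Fin 6) (n : ℕ) :
    ∀ v ∈ (step A)^[n] {u}, Relation.ReflTransGen (fun x y => (x, y) ∈ A) u v := by
  induction n with
  | zero =>
    intro v hv
    simp only [Function.iterate_zero, id_eq, Finset.mem_singleton] at hv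
    subst hv
    exact Relation.ReflTransGen.refl
  | succ n ih =>
    rw [Function.iterate_succ_apply']
    exact step_reach A u _ ih

/-- The arcs of the counterexample. -/
def arcs₀ : Finset (Fin 6 × Fin 6) :=
  {(0, 1), (0, 5), (1, 2), (1, 4), (2, 0), (2, 3), (2, 5), (3, 0), (3, 1), (3, 4), (3, 5),
    (4, 0), (4, 1), (4, 3), (5, 0), (5, 2)}

/-- The counterexample. -/
def D₀ : Dig (Fin 6) where
  arcs := arcs₀
  loopless := by decide

theorem search_del : ∀ x ∈ arcs₀, ∀ u : Fin 6,
    (step (arcs₀ \ {x}))^[5] {u} = Finset.univ := by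
  decide +kernel

theorem search_all : ∀ u : Fin 6, (step (arcs₀ \ ∅))^[5] {u} = Finset.univ := by
  decide +kernel

theorem arcStrong : D₀.ArcStrong 2 := by
  intro X hX hc
  have h2 : X.card = 0 ∨ X.card = 1 := by omega
  rcases h2 with h0 | h1
  · rw [Finset.card_eq_zero] at h0
    subst h0
    intro u v
    have h := search_all u
    exact iterate_reach _ u 5 v (h ▸ Finset.mem_univ v)
  · rw [Finset.card_eq_one] at h1
    obtain ⟨x, rfl⟩ := h1
    have hx : x ∈ arcs₀ := hX (Finset.mem_singleton_self x)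
    intro u v
    have h := search_del x hx u
    exact iterate_reach _ u 5 v (h ▸ Finset.mem_univ v)

/-- A strongly connected spanning subdigraph has an arc leaving every set of vertices which
contains some vertex but not all vertices. -/
theorem Strong.exists_leaving {A : Finset (Fin 6 × Fin 6)} (hA : Strong A)
    (S : Finset (Fin 6)) {a b : Fin 6} (ha : a ∈ S) (hb : b ∉ S) :
    ∃ x ∈ A, x.1 ∈ S ∧ x.2 ∉ S := by
  by_contra hne
  push Not at hne
  have key : ∀ v, Relation.ReflTransGen (fun x y => (x, y) ∈ A) a v → v ∈ S := by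
    intro v hv
    induction hv with
    | refl => exact ha
    | tail _ h ih => exact hne _ h ih
  exact hb (key b (hA a b))

/-- If the arcs of `D₀` leaving `S` are only `e` and `f`, a strongly connected part contains `e`
or `f`. -/
theorem Strong.pair {A : Finset (Fin 6 × Fin 6)} (hA : Strong A) (hsub : A ⊆ arcs₀)
    (S : Finset (Fin 6)) (e f : Fin 6 × Fin 6) {a b : Fin 6} (ha : a ∈ S) (hb : b ∉ S)
    (hcut : ∀ x ∈ arcs₀, x.1 ∈ S → x.2 ∉ S → x = e ∨ x = f) : e ∈ A ∨ f ∈ A := by
  obtain ⟨x, hx, h1, h2⟩ := hA.exists_leaving S ha hb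
  rcases hcut x (hsub hx) h1 h2 with rfl | rfl
  · exact Or.inl hx
  · exact Or.inr hx

theorem five {A : Finset (Fin 6 × Fin 6)} (hA : Strong A) (hsub : A ⊆ arcs₀) :
    ((0, 1) ∈ A ∨ (2, 3) ∈ A) ∧ ((0, 1) ∈ A ∨ (5, 2) ∈ A) ∧ ((1, 2) ∈ A ∨ (5, 2) ∈ A) ∧
      ((1, 2) ∈ A ∨ (1, 4) ∈ A) ∧ ((1, 4) ∈ A ∨ (2, 3) ∈ A) := by
  refine ⟨?_, ?_, ?_, ?_, ?_⟩
  · exact hA.pair hsub {0, 2, 5} _ _ (a := 0) (b := 1) (by decide) (by decide) (by decide)
  · exact hA.pair hsub {0, 5} _ _ (a := 0) (b := 1) (by decide) (by decide) (by decide)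
  · exact hA.pair hsub {0, 1, 3, 4, 5} _ _ (a := 0) (b := 2) (by decide) (by decide) (by decide)
  · exact hA.pair hsub {1} _ _ (a := 1) (b := 0) (by decide) (by decide) (by decide)
  · exact hA.pair hsub {0, 1, 2, 5} _ _ (a := 0) (b := 3) (by decide) (by decide) (by decide)

theorem noDecomposition : ¬ D₀.HasStrongArcDecomposition := by
  rintro ⟨A₁, A₂, hU, hd, h1, h2⟩
  have hU' : A₁ ∪ A₂ = arcs₀ := hU
  have f1 := five h1 (hU' ▸ Finset.subset_union_left)
  have f2 := five h2 (hU' ▸ Finset.subset_union_right)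
  have n : ∀ x, x ∈ A₁ → x ∉ A₂ := fun x h h' => Finset.disjoint_left.mp hd h h'
  obtain ⟨a1, a2, a3, a4, a5⟩ := f1
  obtain ⟨b1, b2, b3, b4, b5⟩ := f2
  by_cases h : (0, 1) ∈ A₁
  · have c23 : (2, 3) ∈ A₂ := b1.resolve_left (n _ h)
    have c52 : (5, 2) ∈ A₂ := b2.resolve_left (n _ h)
    have c14 : (1, 4) ∈ A₁ := a5.resolve_right (fun g => n _ g c23)
    have c12 : (1, 2) ∈ A₁ := a3.resolve_right (fun g => n _ g c52)
    exact (b4.elim (n _ c12) (n _ c14))
  · have c23 : (2, 3) ∈ A₁ := a1.resolve_left h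
    have c52 : (5, 2) ∈ A₁ := a2.resolve_left h
    have c14 : (1, 4) ∈ A₂ := b5.resolve_right (n _ c23)
    have c12 : (1, 2) ∈ A₂ := b3.resolve_right (n _ c52)
    exact (a4.elim (fun g => n _ g c12) (fun g => n _ g c14))

theorem isSplit : D₀.IsSplit := by
  refine ⟨{4, 5}, {0, 1, 2, 3}, ?_, ?_, ?_, ?_⟩
  · ext x
    fin_cases x <;> simp
  · rw [Set.disjoint_left]
    intro x
    fin_cases x <;> simp
  · show ∀ u ∈ ({4, 5} : Set (Fin 6)), ∀ v ∈ ({4, 5} : Set (Fin 6)), (u, v) ∉ arcs₀
    simp only [Set.mem_insert_iff, Set.mem_singleton_iff]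
    decide
  · show ∀ u ∈ ({0, 1, 2, 3} : Set (Fin 6)), ∀ v ∈ ({0, 1, 2, 3} : Set (Fin 6)),
      u ≠ v → (u, v) ∈ arcs₀ ∨ (v, u) ∈ arcs₀
    simp only [Set.mem_insert_iff, Set.mem_singleton_iff]
    decide

theorem minDegree : ∀ v : Fin 6, 5 ≤ D₀.degree v := by
  decide

/-- **Full answer to Q1 (disproof).**  There is a split digraph `D`, on six vertices, which is
2-arc-strong, in which every vertex `v` has degree `d⁺(v) + d⁻(v) ≥ 5`, and which has no strong
arc decomposition. -/
theorem result :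
    ∃ D : Dig (Fin 6), D.IsSplit ∧ D.ArcStrong 2 ∧ (∀ v : Fin 6, 5 ≤ D.degree v) ∧
      ¬ D.HasStrongArcDecomposition :=
  ⟨D₀, isSplit, arcStrong, minDegree, noDecomposition⟩

end Pool.Agent.Results.MP_cb4251_co.SixVertices
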